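import Pool.Agent.H113TC.Long
import Pool.Agent.Helper903.ES.Main

/-!
# Ramsey numbers of trees versus odd cycles

For every odd `m ≥ 3`, every `n ≥ m - 1` and every tree `T` on `n` vertices, `R(T, C_m) = 2n - 1`.
So the threshold `f(m)` of the problem, known to lie between `⌈(2m-1)/3⌉` and `2m - 4`, is at most
`m - 1`.

Outline. If the red graph on `N = 2n - 1` vertices has no copy of `T`, then by the Erdős–Sós theorem
(`ES903.erdos_sos` in the library) it has at most `(n-2)N/2` edges, so the blue graph has at least
`N(N+1)/4` edges. The Erdős–Gallai bound gives a blue cycle with more than `n` vertices. The vertices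
outside a longest blue cycle `C` can be deleted one by one, each having at most half of the current
vertices as neighbours (otherwise a path outside could be inserted into `C`), so the blue graph on
`V(C)` still has more than `|C|²/4` edges; by Bondy's counting it has cycles of all lengths.
-/

set_option autoImplicit false

open Finset

namespace Pool.Agent.Results.MP_0e31aa_co.OrderAboveCycleLength

/-- Every colouring of the edges of `K_N` with red and blue contains a red `T` or a blue `H`. -/
def Arrows {α β : Type} (T : SimpleGraph α) (H : SimpleGraph β) (N : ℕ) : Prop :=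
  ∀ red : SimpleGraph (Fin N), T.IsContained red ∨ H.IsContained redᶜ

/-- The Ramsey number `R(T, H)`: the least `N` such that `K_N` arrows `(T, H)`. -/
noncomputable def ramsey {α β : Type} (T : SimpleGraph α) (H : SimpleGraph β) : ℕ :=
  sInf {N | Arrows T H N}

open H113TC

theorem contained_of_hasCyc {V : Type} [DecidableEq V] (G : SimpleGraph V) {m : ℕ}
    (h : HasCyc G m) : (SimpleGraph.cycleGraph m).IsContained G := by
  obtain ⟨l, ⟨h3, hnd, hch, hcl⟩, rfl⟩ := h
  have hstep : ∀ u v : Fin l.length, (u - v).val = 1 → G.Adj (l[v.val]) (l[u.val]) := by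
    intro u v huv
    by_cases hv : v.val + 1 < l.length
    · have hu : u.val = v.val + 1 := by
        have h1 : u = v + (u - v) := by
          have : NeZero l.length := ⟨by omega⟩
          exact (add_sub_cancel v u).symm
        have h2 := congrArg Fin.val h1
        rw [Fin.val_add, huv, Nat.mod_eq_of_lt hv] at h2
        exact h2
      simp only [hu]
      exact (List.isChain_iff_getElem.mp hch) _ hv
    · have hv' : v.val = l.length - 1 := by have := v.isLt; omega
      have hu : u.val = 0 := by
        have h1 : u = v + (u - v) := by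
          have : NeZero l.length := ⟨by omega⟩
          exact (add_sub_cancel v u).symm
        have h2 := congrArg Fin.val h1
        rw [Fin.val_add, huv, hv', show l.length - 1 + 1 = l.length from by omega,
          Nat.mod_self] at h2
        exact h2
      simp only [hu, hv']
      refine hcl _ ?_ _ ?_
      · rw [List.getLast?_eq_getElem?, List.getElem?_eq_getElem (by omega)]
        rfl
      · rw [List.head?_eq_getElem?, List.getElem?_eq_getElem (by omega)]
        rfl
  refine ⟨⟨⟨fun i => l[i.val], ?_⟩, ?_⟩⟩
  · intro u v huv
    rcases SimpleGraph.cycleGraph_adj'.mp huv with h | h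
    · exact (hstep u v h).symm
    · exact hstep v u h
  · intro u v huv
    exact Fin.ext ((List.Nodup.getElem_inj_iff hnd).mp huv)

theorem upper {m n : ℕ} (hm : 3 ≤ m) (hmn : m ≤ n + 1) (T : SimpleGraph (Fin n))
    (hT : T.IsTree) : Arrows T (SimpleGraph.cycleGraph m) (2 * n - 1) := by
  classical
  intro red
  by_cases hred : T.IsContained red
  · exact Or.inl hred
  · right
    have hn : 2 ≤ n := by omega
    have hcard : Fintype.card (Fin (2 * n - 1)) = 2 * n - 1 := Fintype.card_fin _
    have hes : 2 * red.edgeFinset.card ≤ (n - 1 - 1) * (2 * n - 1) := by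
      by_contra hcon
      push Not at hcon
      obtain ⟨f, hf⟩ := ES903.erdos_sos red (n - 1) (by rw [hcard]; exact hcon) T hT
        (by rw [Fintype.card_fin]; omega)
      exact hred ⟨⟨⟨f, fun {a b} hab => hf a b hab⟩, f.injective⟩⟩
    refine contained_of_hasCyc redᶜ ?_
    refine all_lengths redᶜ hn hcard ?_ hm hmn
    have h1 : ∀ v, dg redᶜ univ v + red.degree v = 2 * n - 2 := by
      intro v
      have h2 : dg redᶜ univ v = redᶜ.degree v := by
        unfold dg
        rw [← SimpleGraph.card_neighborFinset_eq_degree]
        congr 1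
        ext u
        simp
      have h3 := red.degree_compl v
      have h4 := red.degree_lt_card_verts v
      rw [h2, h3, hcard]
      rw [hcard] at h4
      omega
    have h2 : E2 redᶜ univ + 2 * red.edgeFinset.card = (2 * n - 1) * (2 * n - 2) := by
      rw [← red.sum_degrees_eq_twice_card_edges]
      unfold E2
      rw [← sum_add_distrib, sum_congr rfl fun v _ => h1 v]
      simp
    have h3 : (2 * n - 1) * (2 * n - 2) = n * (2 * n - 1) + (n - 1 - 1) * (2 * n - 1) := by
      obtain ⟨k, rfl⟩ : ∃ k, n = k + 2 := ⟨n - 2, by omega⟩
      rw [show 2 * (k + 2) - 1 = 2 * k + 3 from by omega,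
        show 2 * (k + 2) - 2 = 2 * k + 2 from by omega,
        show k + 2 - 1 - 1 = k from by omega]
      ring
    omega

theorem lower {m n N : ℕ} (hm : 3 ≤ m) (hodd : Odd m) (hn : 2 ≤ n) (T : SimpleGraph (Fin n))
    (hT : T.IsTree) (hN : N ≤ 2 * n - 2) : ¬ Arrows T (SimpleGraph.cycleGraph m) N := by
  classical
  intro harr
  let side : Fin N → Prop := fun x => x.val < n - 1
  let red : SimpleGraph (Fin N) :=
    { Adj := fun x y => x ≠ y ∧ (side x ↔ side y)
      symm := ⟨fun x y h => ⟨h.1.symm, h.2.symm⟩⟩
      loopless := ⟨fun x h => h.1 rfl⟩ }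
  rcases harr red with h | h
  · obtain ⟨f⟩ := h
    have hside : ∀ a b : Fin n, T.Reachable a b → (side (f a) ↔ side (f b)) := by
      intro a b hab
      obtain ⟨w⟩ := hab
      induction w with
      | nil => exact Iff.rfl
      | cons hadj _ ih => exact ((f.toHom.map_adj hadj).2).trans ih
    have hn0 : 0 < n := by omega
    let z : Fin n := ⟨0, hn0⟩
    have hconst : ∀ a, side (f a) ↔ side (f z) := fun a =>
      hside a z (hT.connected.preconnected a z)
    have hinj : Function.Injective f := f.injective
    by_cases hz : side (f z)
    · have hsub : (univ : Finset (Fin n)).image (fun a => (f a).val) ⊆ range (n - 1) := by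
        intro x hx
        obtain ⟨a, -, rfl⟩ := mem_image.mp hx
        exact mem_range.mpr ((hconst a).mpr hz)
      have h1 := card_le_card hsub
      rw [card_image_of_injective _ (fun a b hab => hinj (Fin.ext hab)), card_range, card_univ,
        Fintype.card_fin] at h1
      omega
    · have hsub : (univ : Finset (Fin n)).image (fun a => (f a).val) ⊆ Ico (n - 1) N := by
        intro x hx
        obtain ⟨a, -, rfl⟩ := mem_image.mp hx
        have h2 : ¬ (f a).val < n - 1 := fun h => hz ((hconst a).mp h)
        exact mem_Ico.mpr ⟨by omega, (f a).isLt⟩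
      have h1 := card_le_card hsub
      rw [card_image_of_injective _ (fun a b hab => hinj (Fin.ext hab)), Nat.card_Ico, card_univ,
        Fintype.card_fin] at h1
      omega
  · obtain ⟨f⟩ := h
    have hcol : (SimpleGraph.cycleGraph m).Colorable 2 := by
      refine ⟨SimpleGraph.Coloring.mk (fun a => if side (f a) then 0 else 1) ?_⟩
      intro a b hab hcon
      have h1 := f.toHom.map_adj hab
      have hne : f a ≠ f b := h1.ne
      have h2 : ¬ red.Adj (f a) (f b) := ((SimpleGraph.compl_adj _ _ _).mp h1).2
      apply h2
      refine ⟨hne, ?_⟩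
      by_cases ha : side (f a) <;> by_cases hb : side (f b) <;> simp [ha, hb] at hcon ⊢
    have h3 := SimpleGraph.chromaticNumber_cycleGraph_of_odd m (by omega) hodd
    have h4 := hcol.chromaticNumber_le
    rw [h3] at h4
    norm_num at h4

/-- For every odd `m ≥ 3`, every `n ≥ m - 1` and every tree `T` on `n` vertices,
`R(T, C_m) = 2n - 1`. -/
theorem result : ∀ m n : ℕ, Odd m → 3 ≤ m → m ≤ n + 1 → ∀ T : SimpleGraph (Fin n), T.IsTree →
    ramsey T (SimpleGraph.cycleGraph m) = 2 * n - 1 := by
  intro m n hodd hm hmn T hT
  refine le_antisymm (Nat.sInf_le (upper hm hmn T hT)) ?_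
  refine le_csInf ⟨_, upper hm hmn T hT⟩ ?_
  intro N hN
  by_contra hcon
  exact lower hm hodd (by omega) T hT (by omega) hN

end Pool.Agent.Results.MP_0e31aa_co.OrderAboveCycleLength
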